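import Pool.Agent.H.MP_fb0356_an.E

set_option autoImplicit false

namespace Pool.Agent.Results.MP_fb0356_an.Empty

open Pool.Agent.H.MP_fb0356_an Filter Topology

theorem result (r : ℝ) (hr : 1 < r) : ¬ ∃ s ≥ r, ∀ F : ℝ ≃o ℝ, (∀ x, F (x + 1) = F x + 1) →
    IsC s F → IsC s F.symm → ∀ ρ : ℝ, Irrational ρ →
    (∀ x, Tendsto (fun n : ℕ => (F^[n] x - x) / n) atTop (𝓝 ρ)) →
    ∃ p : ℕ → ℤ, ToZero r fun n x => F^[(ρ.convergent n).den] x - p n - x := by
  rintro ⟨s, hs, h⟩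
  have h1 : 1 ≤ s := hr.le.trans hs
  obtain ⟨p, hp⟩ := h ⟨f, f_mem.2.2.1.le_iff_le⟩ f_mem.2.2.2 (isC f_mem h1)
    (isC (inv_mem f_mem) h1) rho rho_irr fun x => by
      have := fc.tendsto_translationNumber x
      simp only [CircleDeg1Lift.coe_pow] at this
      exact this
  exact main hr p hp

end Pool.Agent.Results.MP_fb0356_an.Empty
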